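import Pool.Agent.H717.PR.Stm

set_option autoImplicit false

namespace Pool.Agent.H224.PR

open Pool.Agent.H717.PR

theorem cmp (S x y : ℤ) (hS : 0 ≤ S) (h : x ≠ y) :
    (x < y ∧ S * x + S ≤ S * y) ∨ (y < x ∧ S * y + S ≤ S * x) := by
  rcases lt_or_gt_of_ne h with h | h
  · left
    exact ⟨h, by nlinarith⟩
  · right
    exact ⟨h, by nlinarith⟩

theorem absmax (a b t : ℤ) : |max a b| ≤ t ↔ (a ≤ t ∧ b ≤ t ∧ (-t ≤ a ∨ -t ≤ b)) := by
  rw [abs_le, le_max_iff, max_le_iff]
  tauto

theorem adj_iff (w z : VL) (hw : w.1 = 0 ∨ w.1 = 5) :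
    adj w z = true ↔ w.1 = 5 ∧ z = (0, (w.2.1, w.2.1)) := by
  unfold adj
  simp only [Bool.or_eq_true, Bool.and_eq_true, decide_eq_true_eq]
  rcases hw with hw | hw <;> simp [hw]

variable {I : Inst} {α β ν : Lb → ℤ} {τ N S : ℤ}

/-- the two shapes of a vertex of kind 5 -/
theorem shape (M : Marks I α β ν τ N) (p q : Lb) (hp : p ∈ base I) (hq : q ∈ base I)
    (hf : far I p q = true) :
    (β p < α q ∧ lf S α β ν (5, (p, q)) = S * β p + (α q - β p) ∧
      rt S α β ν (5, (p, q)) = S * α q + ν p) ∨
    (β q < α p ∧ lf S α β ν (5, (p, q)) = S * β q - ν p ∧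
      rt S α β ν (5, (p, q)) = S * α p - (α p - β q)) := by
  unfold lf rt
  by_cases h : β p < α q
  · left
    simp [h]
  · right
    rcases M.far p hp q hq hf with h' | h'
    · exact absurd h' h
    · simp [h, h']

theorem case00 (M : Marks I α β ν τ N) (hS : 2 * N + 10 * τ ≤ S) (u v : Lb) (hu : u ∈ base I)
    (hv : v ∈ base I) :
    ¬ |max (S * α u - S * β v) (S * α v - S * β u)| ≤ τ := by
  rw [absmax]
  have h1 := M.pos
  have h2 := M.nu1 u hu
  have hS0 : 0 ≤ S := by omega
  have c1 := cmp S _ _ hS0 (M.ab u hu v hv)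
  have c2 := cmp S _ _ hS0 (M.ab v hv u hu)
  omega

theorem case50 (M : Marks I α β ν τ N) (hS : 2 * N + 10 * τ ≤ S) (p q u : Lb) (hp : p ∈ base I)
    (hq : q ∈ base I) (hu : u ∈ base I) (hf : far I p q = true) :
    |max (lf S α β ν (5, (p, q)) - S * β u) (S * α u - rt S α β ν (5, (p, q)))| ≤ τ ↔
      u = p := by
  rw [absmax]
  have h1 := M.pos
  have h2 := M.nu1 p hp
  have hS0 : 0 ≤ S := by omega
  rcases shape (S := S) M p q hp hq hf with ⟨hpq, hl, hr⟩ | ⟨hpq, hl, hr⟩
  · rw [hl, hr]
    have ht := M.tau q hq p hp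
    by_cases hup : u = p
    · subst hup
      have c1 := cmp S _ _ hS0 (show α u ≠ α q by
        have := M.lt u hu
        omega)
      have := M.lt u hu
      simp only [iff_true]
      omega
    · simp only [hup, iff_false]
      have c1 := cmp S _ _ hS0 (M.bb u hu p hp hup)
      by_cases huq : u = q
      · subst huq
        omega
      · have c2 := cmp S _ _ hS0 (M.aa u hu q hq huq)
        omega
  · rw [hl, hr]
    have ht := M.tau p hp q hq
    by_cases hup : u = p
    · subst hup
      have c1 := cmp S _ _ hS0 (show β q ≠ β u by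
        have := M.lt u hu
        omega)
      have := M.lt u hu
      simp only [iff_true]
      omega
    · simp only [hup, iff_false]
      have c1 := cmp S _ _ hS0 (M.aa u hu p hp hup)
      by_cases huq : u = q
      · subst huq
        omega
      · have c2 := cmp S _ _ hS0 (M.bb u hu q hq huq)
        omega

theorem case55 (M : Marks I α β ν τ N) (hS : 2 * N + 10 * τ ≤ S) (p q p' q' : Lb)
    (hp : p ∈ base I) (hq : q ∈ base I) (hp' : p' ∈ base I) (hq' : q' ∈ base I)
    (hf : far I p q = true) (hf' : far I p' q' = true) :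
    ¬ |max (lf S α β ν (5, (p, q)) - rt S α β ν (5, (p', q')))
      (lf S α β ν (5, (p', q')) - rt S α β ν (5, (p, q)))| ≤ τ := by
  rw [absmax]
  have h1 := M.pos
  have h2 := M.nu1 p hp
  have h3 := M.nu1 p' hp'
  have hS0 : 0 ≤ S := by omega
  rcases shape (S := S) M p q hp hq hf with ⟨hpq, hl, hr⟩ | ⟨hpq, hl, hr⟩ <;>
  rcases shape (S := S) M p' q' hp' hq' hf' with ⟨hpq', hl', hr'⟩ | ⟨hpq', hl', hr'⟩
  · rw [hl, hr, hl', hr']
    have t1 := M.tau q hq p hp
    have t2 := M.tau q' hq' p' hp'
    have c1 := cmp S _ _ hS0 (M.ab q' hq' p hp)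
    have c2 := cmp S _ _ hS0 (M.ab q hq p' hp')
    omega
  · rw [hl, hr, hl', hr']
    have t1 := M.tau q hq p hp
    have t2 := M.tau p' hp' q' hq'
    have c1 := cmp S _ _ hS0 (M.ab p' hp' p hp)
    have c2 := cmp S _ _ hS0 (M.ab q hq q' hq')
    omega
  · rw [hl, hr, hl', hr']
    have t1 := M.tau p hp q hq
    have t2 := M.tau q' hq' p' hp'
    have c1 := cmp S _ _ hS0 (M.ab q' hq' q hq)
    have c2 := cmp S _ _ hS0 (M.ab p hp p' hp')
    omega
  · rw [hl, hr, hl', hr']
    have t1 := M.tau p hp q hq
    have t2 := M.tau p' hp' q' hq'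
    have c1 := cmp S _ _ hS0 (M.ab p' hp' q hq)
    have c2 := cmp S _ _ hS0 (M.ab p hp q' hq')
    omega

theorem t_cc (h : S_mem) : S_cc := by
  intro I α β ν τ N S M hS w hw z hz hwz hw05 hz05
  rw [adj_iff w z hw05, adj_iff z w hz05]
  have hw' := (h I w).mp hw
  have hz' := (h I z).mp hz
  obtain ⟨kw, p, q⟩ := w
  obtain ⟨kz, p', q'⟩ := z
  simp only at hw05 hz05 hw' hz' ⊢
  rcases hw05 with rfl | rfl
  · obtain ⟨rfl, hp⟩ : p = q ∧ p ∈ base I := by
      rcases hw' with h | h | h
      · exact ⟨h.2.1, h.2.2⟩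
      · omega
      · omega
    rcases hz05 with rfl | rfl
    · obtain ⟨rfl, hp'⟩ : p' = q' ∧ p' ∈ base I := by
        rcases hz' with h | h | h
        · exact ⟨h.2.1, h.2.2⟩
        · omega
        · omega
      have key := case00 M hS p p' hp hp'
      have e1 : lf S α β ν (0, (p, p)) = S * α p := by simp [lf]
      have e2 : lf S α β ν (0, (p', p')) = S * α p' := by simp [lf]
      have e3 : rt S α β ν (0, (p, p)) = S * β p := by simp [rt]
      have e4 : rt S α β ν (0, (p', p')) = S * β p' := by simp [rt]
      rw [e1, e2, e3, e4]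
      constructor
      · rintro (h | h) <;> omega
      · intro h
        exact absurd h key
    · obtain ⟨hp', hq', hf'⟩ : p' ∈ base I ∧ q' ∈ base I ∧ far I p' q' = true := by
        rcases hz' with h | h | h
        · omega
        · omega
        · exact h.2.2
      have key := case50 M hS p' q' p hp' hq' hp hf'
      have e1 : lf S α β ν (0, (p, p)) = S * α p := by simp [lf]
      have e3 : rt S α β ν (0, (p, p)) = S * β p := by simp [rt]
      rw [e1, e3, max_comm, key]
      constructor
      · rintro (h | h)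
        · omega
        · have := h.2
          simp only [Prod.mk.injEq, true_and] at this
          exact this.1
      · rintro rfl
        right
        exact ⟨rfl, rfl⟩
  · obtain ⟨hp, hq, hf⟩ : p ∈ base I ∧ q ∈ base I ∧ far I p q = true := by
      rcases hw' with h | h | h
      · omega
      · omega
      · exact h.2.2
    rcases hz05 with rfl | rfl
    · obtain ⟨rfl, hp'⟩ : p' = q' ∧ p' ∈ base I := by
        rcases hz' with h | h | h
        · exact ⟨h.2.1, h.2.2⟩
        · omega
        · omega
      have key := case50 M hS p q p' hp hq hp' hf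
      have e2 : lf S α β ν (0, (p', p')) = S * α p' := by simp [lf]
      have e4 : rt S α β ν (0, (p', p')) = S * β p' := by simp [rt]
      rw [e2, e4, key]
      constructor
      · rintro (h | h)
        · have := h.2
          simp only [Prod.mk.injEq, true_and] at this
          exact this.1
        · omega
      · rintro rfl
        left
        exact ⟨rfl, rfl⟩
    · obtain ⟨hp', hq', hf'⟩ : p' ∈ base I ∧ q' ∈ base I ∧ far I p' q' = true := by
        rcases hz' with h | h | h
        · omega
        · omega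
        · exact h.2.2
      have key := case55 M hS p q p' q' hp hq hp' hq' hf hf'
      constructor
      · rintro (h | h)
        · have := h.2
          simp only [Prod.mk.injEq] at this
          omega
        · have := h.2
          simp only [Prod.mk.injEq] at this
          omega
      · intro h
        exact absurd h key

end Pool.Agent.H224.PR
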